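import Pool.Agent.W515.SLP.Wron

/-!
# The Wronskian inequality for polynomials with sum zero and no other linear relation (core)
-/

set_option autoImplicit false
set_option linter.unusedSectionVars false

open Polynomial Finset

namespace Pool.Agent.Y977.U557

open Pool.Agent.W515.SLP

/-- the roots of the product -/
noncomputable def rts {K : Type} [Field K] {n : ℕ} (P : Fin n → K[X]) : Finset K :=
  letI := Classical.decEq K
  (∏ i, P i).roots.toFinset

theorem sum_ge (s : Finset ℕ) : s.card * (s.card - 1) ≤ 2 * ∑ x ∈ s, x := by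
  induction s using Finset.induction_on_max with
  | empty => simp
  | insert a s hs ih =>
    have ha : a ∉ s := fun h => lt_irrefl _ (hs a h)
    rw [card_insert_of_notMem ha, sum_insert ha]
    have h1 : s.card ≤ a := by
      have : s ⊆ range a := fun x hx => mem_range.2 (hs x hx)
      simpa using card_le_card this
    rcases Nat.eq_zero_or_pos s.card with h0 | h0
    · simp [h0]
    · obtain ⟨c, hc⟩ : ∃ c, s.card = c + 1 := ⟨s.card - 1, by omega⟩
      rw [hc] at ih h1 ⊢
      simp only [Nat.add_sub_cancel] at ih ⊢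
      nlinarith

theorem sum_inj {n D : ℕ} (d : Fin n → ℕ) (hinj : Function.Injective d) (hd : ∀ i, d i ≤ D) :
    2 * ∑ i, d i + n * (n - 1) ≤ 2 * (n * D) := by
  classical
  have h1 := sum_ge (univ.image fun i => D - d i)
  have hinj' : Function.Injective fun i => D - d i := by
    intro i j hij
    apply hinj
    have := hd i
    have := hd j
    simp only at hij
    omega
  rw [card_image_of_injective _ hinj', card_univ, Fintype.card_fin,
    sum_image fun i _ j _ hij => hinj' hij] at h1
  have h2 : ∑ i, (D - d i) + ∑ i, d i = n * D := by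
    rw [← sum_add_distrib]
    have : ∀ i : Fin n, D - d i + d i = D := fun i => Nat.sub_add_cancel (hd i)
    simp [this]
  omega

theorem perm_sum {n : ℕ} (σ : Equiv.Perm (Fin n)) : 2 * ∑ i, ((σ i : Fin n) : ℕ) = n * (n - 1) := by
  rw [Equiv.sum_comp σ (fun i : Fin n => (i : ℕ)), Fin.sum_univ_eq_sum_range (fun i => i) n, mul_comm,
    Finset.sum_range_id_mul_two]

section
variable {k : Type*} [Field k] [CharZero k]

/-- the terms of the determinant -/
theorem term_deg {n : ℕ} (f : Fin n → k[X]) (σ : Equiv.Perm (Fin n))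
    (h : ∏ i, (wmat f) (σ i) i ≠ 0) :
    2 * (∏ i, (wmat f) (σ i) i).natDegree + n * (n - 1) ≤ 2 * ∑ i, (f i).natDegree := by
  have h1 : ∀ i, ((wmat f) (σ i) i).natDegree + ((σ i : Fin n) : ℕ) ≤ (f i).natDegree := by
    intro i
    have h2 : (wmat f) (σ i) i ≠ 0 := (prod_ne_zero_iff.1 h) i (mem_univ i)
    have h3 : (wmat f) (σ i) i = derivative^[((σ i : Fin n) : ℕ)] (f i) := rfl
    rw [h3] at h2 ⊢
    have h4 : ((σ i : Fin n) : ℕ) ≤ (f i).natDegree := by
      by_contra hcon
      push Not at hcon
      exact h2 (iterate_derivative_eq_zero hcon)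
    have h5 := natDegree_iterate_derivative (f i) ((σ i : Fin n) : ℕ)
    omega
  have h2 : (∏ i, (wmat f) (σ i) i).natDegree ≤ ∑ i, ((wmat f) (σ i) i).natDegree :=
    natDegree_prod_le _ _
  have h3 : ∑ i, (((wmat f) (σ i) i).natDegree + ((σ i : Fin n) : ℕ)) ≤ ∑ i, (f i).natDegree :=
    sum_le_sum fun i _ => h1 i
  rw [sum_add_distrib] at h3
  have h4 := perm_sum σ
  omega

theorem deg_le {n : ℕ} (f : Fin n → k[X]) (hW : (wmat f).det ≠ 0) :
    2 * (wmat f).det.natDegree + n * (n - 1) ≤ 2 * ∑ i, (f i).natDegree := by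
  classical
  have hex : ∃ σ : Equiv.Perm (Fin n), ∏ i, (wmat f) (σ i) i ≠ 0 := by
    by_contra hcon
    push Not at hcon
    apply hW
    rw [Matrix.det_apply]
    exact sum_eq_zero fun σ _ => by rw [hcon σ, smul_zero]
  obtain ⟨σ₀, hσ₀⟩ := hex
  have h0 := term_deg f σ₀ hσ₀
  have h1 : (wmat f).det.natDegree ≤ (2 * ∑ i, (f i).natDegree - n * (n - 1)) / 2 := by
    rw [Matrix.det_apply]
    refine natDegree_sum_le_of_forall_le _ _ fun σ _ => ?_
    have h2 : (∏ i, (wmat f) (σ i) i).natDegree ≤ (2 * ∑ i, (f i).natDegree - n * (n - 1)) / 2 := by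
      by_cases hz : ∏ i, (wmat f) (σ i) i = 0
      · rw [hz]; simp
      · have := term_deg f σ hz
        omega
    rcases Int.units_eq_one_or (Equiv.Perm.sign σ) with h | h
    · rw [h, one_smul]; exact h2
    · rw [h]
      simpa using h2
  omega

/-- a column of a nonzero Wronskian is not zero -/
theorem ne_zero_of_det {n : ℕ} (f : Fin n → k[X]) (hW : (wmat f).det ≠ 0) (i : Fin n) : f i ≠ 0 := by
  intro h
  apply hW
  refine Matrix.det_eq_zero_of_column_eq_zero i fun l => ?_
  show derivative^[(l : ℕ)] (f i) = 0
  rw [h, iterate_derivative_zero]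

theorem deg_le2 {n : ℕ} (D : ℕ) : ∀ (N : ℕ) (f : Fin n → k[X]), ∑ i, (f i).natDegree ≤ N →
    (∀ i, (f i).natDegree ≤ D) → (wmat f).det ≠ 0 →
    (wmat f).det.natDegree + n * (n - 1) ≤ n * D := by
  classical
  intro N
  induction N with
  | zero =>
    intro f hN hD hW
    by_cases hinj : Function.Injective fun i => (f i).natDegree
    · have h1 := deg_le f hW
      have h2 := sum_inj _ hinj hD
      omega
    · exfalso
      rw [Function.not_injective_iff] at hinj
      obtain ⟨i, j, hij, hne⟩ := hinj
      have hz : ∀ l, (f l).natDegree = 0 := fun l =>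
        Nat.le_zero.1 ((single_le_sum (f := fun l => (f l).natDegree) (fun _ _ => Nat.zero_le _)
          (mem_univ l)).trans hN)
      -- two constant columns
      apply hW
      rw [Matrix.det_apply]
      refine sum_eq_zero fun σ _ => ?_
      have hprod : ∏ l, (wmat f) (σ l) l = 0 := by
        have hor : (0 < ((σ i : Fin n) : ℕ)) ∨ (0 < ((σ j : Fin n) : ℕ)) := by
          by_contra hcon
          push Not at hcon
          apply hne
          apply σ.injective
          apply Fin.ext
          omega
        rcases hor with h | h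
        · refine prod_eq_zero (mem_univ i) ?_
          show derivative^[((σ i : Fin n) : ℕ)] (f i) = 0
          exact iterate_derivative_eq_zero (by rw [hz i]; exact h)
        · refine prod_eq_zero (mem_univ j) ?_
          show derivative^[((σ j : Fin n) : ℕ)] (f j) = 0
          exact iterate_derivative_eq_zero (by rw [hz j]; exact h)
      rw [hprod, smul_zero]
  | succ N ih =>
    intro f hN hD hW
    by_cases hinj : Function.Injective fun i => (f i).natDegree
    · have h1 := deg_le f hW
      have h2 := sum_inj _ hinj hD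
      omega
    · rw [Function.not_injective_iff] at hinj
      obtain ⟨i, j, hij, hne⟩ := hinj
      have hi := ne_zero_of_det f hW i
      have hj := ne_zero_of_det f hW j
      obtain ⟨lam, hlam⟩ : ∃ lam : k, lam = (f i).leadingCoeff / (f j).leadingCoeff := ⟨_, rfl⟩
      have hlj : (f j).leadingCoeff ≠ 0 := leadingCoeff_ne_zero.2 hj
      have hli : (f i).leadingCoeff ≠ 0 := leadingCoeff_ne_zero.2 hi
      have hlam0 : lam ≠ 0 := by rw [hlam]; exact div_ne_zero hli hlj
      set c : Fin n → k := fun l => if l = i then 1 else if l = j then -lam else 0 with hc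
      have hsum : ∑ l, C (c l) * f l = f i - C lam * f j := by
        rw [Finset.sum_eq_add i j hne]
        · simp only [hc, if_true, if_neg (Ne.symm hne)]
          rw [C_1, C_neg]
          ring
        · intro l _ hl
          simp only [hc, if_neg hl.1, if_neg hl.2]
          simp
        · intro h; exact absurd (mem_univ i) h
        · intro h; exact absurd (mem_univ j) h
      have hu := wmat_update f c i
      rw [hsum] at hu
      have hci : c i = 1 := by simp [hc]
      rw [hci, C_1, one_mul] at hu
      set f' := Function.update f i (f i - C lam * f j) with hf'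
      have hW' : (wmat f').det ≠ 0 := by rw [hu]; exact hW
      have hf'i : f' i = f i - C lam * f j := by rw [hf', Function.update_self]
      have hf'0 : f i - C lam * f j ≠ 0 := by
        rw [← hf'i]; exact ne_zero_of_det f' hW' i
      have hdeg : (C lam * f j).degree = (f j).degree := by
        rw [degree_C_mul hlam0]
      have hlt : (f i - C lam * f j).natDegree < (f i).natDegree := by
        apply natDegree_lt_natDegree hf'0
        apply degree_sub_lt_left
        · rw [hdeg, degree_eq_natDegree hi, degree_eq_natDegree hj, hij]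
        · exact hi
        · rw [leadingCoeff_mul, leadingCoeff_C, hlam, div_mul_cancel₀ _ hlj]
      have hf'ne : ∀ l, l ≠ i → f' l = f l := fun l hl => by rw [hf', Function.update_of_ne hl]
      have hD' : ∀ l, (f' l).natDegree ≤ D := by
        intro l
        by_cases hl : l = i
        · rw [hl, hf'i]
          exact hlt.le.trans (hD i)
        · rw [hf'ne l hl]; exact hD l
      have hN' : ∑ l, (f' l).natDegree ≤ N := by
        have h1 : ∑ l, (f' l).natDegree < ∑ l, (f l).natDegree := by
          refine sum_lt_sum (fun l _ => ?_) ⟨i, mem_univ i, ?_⟩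
          · by_cases hl : l = i
            · rw [hl, hf'i]; exact hlt.le
            · rw [hf'ne l hl]
          · rw [hf'i]; exact hlt
        omega
      have := ih f' hN' hD' hW'
      rw [hu] at this
      exact this

/-- the order of the Wronskian at a point -/
theorem pow_dvd {n : ℕ} (f : Fin n → k[X]) (a : k) :
    (X - C a) ^ (∑ i, rootMultiplicity a (f i) - n * (n - 1) / 2) ∣ (wmat f).det := by
  classical
  rw [Matrix.det_apply]
  refine Finset.dvd_sum fun σ _ => ?_
  have h1 : (X - C a) ^ (∑ i, rootMultiplicity a (f i) - n * (n - 1) / 2) ∣ ∏ i, (wmat f) (σ i) i := by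
    have h2 : ∑ i, rootMultiplicity a (f i) - n * (n - 1) / 2 ≤
        ∑ i, (rootMultiplicity a (f i) - ((σ i : Fin n) : ℕ)) := by
      have h3 : ∑ i, rootMultiplicity a (f i) ≤
          ∑ i, ((rootMultiplicity a (f i) - ((σ i : Fin n) : ℕ)) + ((σ i : Fin n) : ℕ)) :=
        sum_le_sum fun i _ => by omega
      rw [sum_add_distrib] at h3
      have h4 := perm_sum σ
      omega
    refine (pow_dvd_pow _ h2).trans ?_
    rw [← Finset.prod_pow_eq_pow_sum]
    refine Finset.prod_dvd_prod_of_dvd _ _ fun i _ => ?_
    exact pow_sub_dvd_iterate_derivative_of_pow_dvd ((σ i : Fin n) : ℕ) (pow_rootMultiplicity_dvd (f i) a)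
  rcases Int.units_eq_one_or (Equiv.Perm.sign σ) with h | h
  · rw [h, one_smul]; exact h1
  · rw [h]
    simpa using h1

/-- omitting another index changes the Wronskian only by the sign -/
theorem swap_det {n : ℕ} (P : Fin (n + 1) → k[X]) (hsum : ∑ i, P i = 0) (j : Fin (n + 1)) :
    (wmat fun i : Fin n => P (Equiv.swap j (Fin.last n) i.castSucc)).det =
        (wmat fun i : Fin n => P i.castSucc).det ∨
      (wmat fun i : Fin n => P (Equiv.swap j (Fin.last n) i.castSucc)).det =
        -(wmat fun i : Fin n => P i.castSucc).det := by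
  classical
  induction j using Fin.lastCases with
  | last =>
    left
    rw [Equiv.swap_self]
    rfl
  | cast j' =>
    right
    have hP : P (Fin.last n) = ∑ i : Fin n, C ((fun _ : Fin n => (-1 : k)) i) * P i.castSucc := by
      rw [Fin.sum_univ_castSucc] at hsum
      rw [← mul_sum]
      have : (C (-1 : k) : k[X]) = -1 := by rw [C_neg, C_1]
      rw [this]
      linear_combination hsum
    have h1 : (fun i : Fin n => P (Equiv.swap j'.castSucc (Fin.last n) i.castSucc)) =
        Function.update (fun i : Fin n => P i.castSucc) j'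
          (∑ i : Fin n, C ((fun _ : Fin n => (-1 : k)) i) * P i.castSucc) := by
      funext i
      by_cases hi : i = j'
      · subst hi
        rw [Equiv.swap_apply_left, Function.update_self, hP]
      · rw [Function.update_of_ne hi, Equiv.swap_apply_of_ne_of_ne]
        · intro h
          exact hi (Fin.castSucc_injective n h)
        · exact (Fin.castSucc_lt_last i).ne
    rw [h1, wmat_update (fun i : Fin n => P i.castSucc) (fun _ => -1) j', C_neg, C_1]
    ring

theorem sum_swap {n : ℕ} (F : Fin (n + 1) → ℕ) (j : Fin (n + 1)) :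
    ∑ i : Fin n, F (Equiv.swap j (Fin.last n) i.castSucc) + F j = ∑ i, F i := by
  rw [← Equiv.sum_comp (Equiv.swap j (Fin.last n)) F, Fin.sum_univ_castSucc, Equiv.swap_apply_right]

end

section
variable {K : Type} [Field K] [CharZero K]

theorem sum_deg_le {n : ℕ} (P : Fin (n + 1) → K[X]) (hP : ∀ i, P i ≠ 0) (hs : ∀ i, (P i).Splits)
    (hc : ∀ r : K, ∃ i, (P i).eval r ≠ 0) (hsum : ∑ i, P i = 0)
    (hW : (wmat fun i : Fin n => P i.castSucc).det ≠ 0) :
    ∑ i, (P i).natDegree ≤ (wmat fun i : Fin n => P i.castSucc).det.natDegree +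
      (rts P).card * (n * (n - 1) / 2) := by
  classical
  set W := (wmat fun i : Fin n => P i.castSucc).det with hWdef
  set B := n * (n - 1) / 2 with hB
  have h1 : ∀ a : K, (X - C a) ^ (∑ i, rootMultiplicity a (P i) - B) ∣ W := by
    intro a
    obtain ⟨j, hj⟩ := hc a
    have hj0 : rootMultiplicity a (P j) = 0 := rootMultiplicity_eq_zero hj
    have h2 := pow_dvd (fun i : Fin n => P (Equiv.swap j (Fin.last n) i.castSucc)) a
    have h3 := sum_swap (fun i => rootMultiplicity a (P i)) j
    rw [hj0, add_zero] at h3
    rw [h3] at h2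
    rcases swap_det P hsum j with h | h
    · rw [h] at h2; exact h2
    · rw [h] at h2; exact (dvd_neg.1 h2)
  have h2 : ∏ a ∈ rts P, (X - C a) ^ (∑ i, rootMultiplicity a (P i) - B) ∣ W := by
    refine Finset.prod_dvd_of_coprime ?_ fun a _ => h1 a
    intro a _ b _ hab
    exact (IsCoprime.pow (isCoprime_X_sub_C_of_isUnit_sub (sub_ne_zero.2 hab).isUnit))
  have h3 : ∑ a ∈ rts P, (∑ i, rootMultiplicity a (P i) - B) ≤ W.natDegree := by
    have h4 := natDegree_le_of_dvd h2 hW
    rw [natDegree_prod_of_monic _ _ fun a _ => (monic_X_sub_C a).pow _] at h4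
    simpa [natDegree_pow] using h4
  have h4 : ∑ a ∈ rts P, ∑ i, rootMultiplicity a (P i) = ∑ i, (P i).natDegree := by
    rw [sum_comm]
    refine sum_congr rfl fun i _ => ?_
    have h5 : ∀ a, rootMultiplicity a (P i) = (P i).roots.count a := fun a => (count_roots _).symm
    simp only [h5]
    rw [Multiset.sum_count_eq_card]
    · exact (splits_iff_card_roots.1 (hs i))
    · intro a ha
      unfold rts
      rw [Multiset.mem_toFinset, mem_roots (prod_ne_zero_iff.2 fun i _ => hP i), IsRoot.def,
        eval_prod]
      exact prod_eq_zero (mem_univ i) ((mem_roots (hP i)).1 ha)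
  have h5 : ∑ a ∈ rts P, ∑ i, rootMultiplicity a (P i) ≤
      ∑ a ∈ rts P, ((∑ i, rootMultiplicity a (P i) - B) + B) := sum_le_sum fun a _ => by omega
  rw [sum_add_distrib, sum_const, smul_eq_mul] at h5
  omega

theorem bm_core (n : ℕ) (P : Fin (n + 1) → K[X]) (D : ℕ) (hP : ∀ i, P i ≠ 0) (hs : ∀ i, (P i).Splits)
    (hc : ∀ r : K, ∃ i, (P i).eval r ≠ 0) (hsum : ∑ i, P i = 0)
    (hli : LinearIndependent K fun i : Fin n => P i.castSucc)
    (hD : ∀ i, (P i).natDegree ≤ D) (hD' : ∃ i, (P i).natDegree = D) (hD1 : 1 ≤ D) :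
    (2 * D + n * (n - 1) ≤ n * (n - 1) * (rts P).card) ∧
      ((∀ i, (P i).natDegree = D) → 2 * D + 2 * (n * (n - 1)) ≤ n * (n - 1) * (rts P).card) := by
  classical
  have hW := wmat_det_ne_zero _ hli
  have h1 := sum_deg_le P hP hs hc hsum hW
  have hev : 2 * (n * (n - 1) / 2) = n * (n - 1) := by
    have := Nat.even_mul_pred_self n
    exact Nat.two_mul_div_two_of_even this
  have h1' : 2 * ∑ i, (P i).natDegree ≤ 2 * (wmat fun i : Fin n => P i.castSucc).det.natDegree +
      n * (n - 1) * (rts P).card := by
    have e : 2 * ((rts P).card * (n * (n - 1) / 2)) = n * (n - 1) * (rts P).card := by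
      obtain ⟨B', hB'⟩ : ∃ B', B' = n * (n - 1) / 2 := ⟨_, rfl⟩
      rw [← hB'] at hev ⊢
      calc 2 * ((rts P).card * B') = (2 * B') * (rts P).card := by ring
        _ = _ := by rw [hev]
    omega
  constructor
  · obtain ⟨j, hj⟩ := hD'
    have h2 : (wmat fun i : Fin n => P (Equiv.swap j (Fin.last n) i.castSucc)).det ≠ 0 := by
      rcases swap_det P hsum j with h | h
      · rw [h]; exact hW
      · rw [h]; exact neg_ne_zero.2 hW
    have h3 := deg_le _ h2
    have h4 : (wmat fun i : Fin n => P (Equiv.swap j (Fin.last n) i.castSucc)).det.natDegree =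
        (wmat fun i : Fin n => P i.castSucc).det.natDegree := by
      rcases swap_det P hsum j with h | h
      · rw [h]
      · rw [h, natDegree_neg]
    rw [h4] at h3
    have h5 := sum_swap (fun i => (P i).natDegree) j
    rw [hj] at h5
    omega
  · intro hall
    have h2 := deg_le2 D _ (fun i : Fin n => P i.castSucc) le_rfl (fun i => hD _) hW
    have h3 : ∑ i, (P i).natDegree = (n + 1) * D := by
      rw [sum_congr rfl fun i _ => hall i, sum_const, card_univ, Fintype.card_fin, smul_eq_mul]
    rw [h3] at h1'
    have h4 : (n + 1) * D = n * D + D := by ring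
    omega

end

end Pool.Agent.Y977.U557
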