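import Pool.Agent.Y557.U.Stm5
import Pool.Agent.Y977.U557.BMCore

/-!
# The Wronskian inequality for polynomials with sum zero and no other linear relation
-/

set_option autoImplicit false

open Polynomial

namespace Pool.Agent.Y977.U557

theorem bm_holds (K : Type) [Field K] [CharZero K] : Pool.Agent.Y557.U.S_BM K := by
  classical
  intro n P D hP hs hc hsum hli hD hD' hD1
  obtain ⟨h1, h2⟩ := bm_core n P D hP hs hc hsum hli hD hD' hD1
  have hr : Pool.Agent.Y557.NF.rts P = rts P := by
    unfold Pool.Agent.Y557.NF.rts rts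
    congr!
  unfold Pool.Agent.Y557.NF.nz
  rw [hr]
  by_cases hU : Pool.Agent.Y557.NF.Unequal P
  · rw [if_pos hU, mul_add, mul_one]
    omega
  · rw [if_neg hU, add_zero]
    refine h2 fun l => ?_
    obtain ⟨i, hi⟩ := hD'
    by_contra hl
    exact hU ⟨l, i, by rw [hi]; exact lt_of_le_of_ne (hD l) hl⟩

end Pool.Agent.Y977.U557
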